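import Pool.Agent.W2helper44.OT.Stm

/-!
# Piece ORL of project OT: the number theory of Orlik's recipe
-/

set_option autoImplicit false

namespace Pool.Agent.W2helper52.OT

open Pool.Agent.W2helper44.OT

theorem card_gt (e V : ℕ) : ((Finset.Icc 1 e).filter fun t => V < t).card = e - V := by
  have h : ((Finset.Icc 1 e).filter fun t => V < t) = Finset.Icc (V + 1) e := by
    ext t
    simp only [Finset.mem_filter, Finset.mem_Icc]
    omega
  rw [h, Nat.card_Icc]
  omega

theorem fac_u {d w p : ℕ} (hd : 0 < d) (hw : 0 < w) :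
    (d / Nat.gcd d w).factorization p = d.factorization p - w.factorization p := by
  rw [Nat.factorization_div (Nat.gcd_dvd_left d w), Finsupp.tsub_apply,
    Nat.factorization_gcd hd.ne' hw.ne', Finsupp.inf_apply]
  omega

theorem p_ORL : P_ORL := by
  intro n w d hw hd u hu c hc k hk j
  classical
  have hu0 : ∀ i, 0 < u i := by
    intro i
    rw [hu]
    exact Nat.div_pos (Nat.le_of_dvd hd (Nat.gcd_dvd_left _ _)) (Nat.gcd_pos_of_pos_left _ hd)
  have hg0 : ∀ I : Finset (Fin (n + 1)), I ≠ Finset.univ → (Finset.univ \ I).gcd u ≠ 0 := by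
    intro I hI h0
    obtain ⟨i, hi⟩ : ∃ i, i ∉ I := by
      by_contra h
      push Not at h
      exact hI (Finset.eq_univ_iff_forall.2 h)
    have h1 := Finset.gcd_dvd (f := u) (Finset.mem_sdiff.2 ⟨Finset.mem_univ i, hi⟩)
    rw [h0, zero_dvd_iff] at h1
    exact (hu0 i).ne' h1
  have hc0 : ∀ I : Finset (Fin (n + 1)), I ≠ Finset.univ → ∀ J ∈ I.powerset, c J ≠ 0 := by
    intro I hI J hJ h0
    apply hg0 I hI
    rw [← hc I]
    exact Finset.prod_eq_zero hJ h0
  have hc1 : ∀ I : Finset (Fin (n + 1)), I ≠ Finset.univ → c I ≠ 0 := fun I hI =>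
    hc0 I hI I (Finset.mem_powerset_self I)
  have hfil : ∀ I ∈ Finset.univ.filter (fun I => ((j + 1 : ℕ) : ℚ) ≤ k I), I ≠ Finset.univ := by
    rintro I hI rfl
    rw [Finset.mem_filter] at hI
    have h1 : ((j + 1 : ℕ) : ℚ) ≤ 0 := hI.2.trans hk
    have h2 : (0 : ℚ) < ((j + 1 : ℕ) : ℚ) := by exact_mod_cast Nat.succ_pos j
    exact absurd h1 (not_le.2 h2)
  refine ⟨Finset.prod_pos fun I hI => Nat.pos_of_ne_zero (hc1 I (hfil I hI)), fun p hp => ?_⟩
  set e := d.factorization p with he
  -- the gcd
  have hgcd : ∀ I : Finset (Fin (n + 1)), I ≠ Finset.univ →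
      ((Finset.univ \ I).gcd u).factorization p =
        ((Finset.Icc 1 e).filter fun t => idx w p t ⊆ I).card := by
    intro I hI
    set V := (Finset.univ \ I).sup fun i => (w i).factorization p with hV
    have hne : (Finset.univ \ I).Nonempty := by
      obtain ⟨i, hi⟩ : ∃ i, i ∉ I := by
        by_contra h
        push Not at h
        exact hI (Finset.eq_univ_iff_forall.2 h)
      exact ⟨i, Finset.mem_sdiff.2 ⟨Finset.mem_univ i, hi⟩⟩
    have h1 : ((Finset.Icc 1 e).filter fun t => idx w p t ⊆ I) =
        (Finset.Icc 1 e).filter fun t => V < t := by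
      apply Finset.filter_congr
      intro t ht
      rw [Finset.mem_Icc] at ht
      rw [hV, Finset.sup_lt_iff (by rw [bot_eq_zero]; omega)]
      constructor
      · intro h i hi
        rw [Finset.mem_sdiff] at hi
        by_contra hlt
        apply hi.2
        apply h
        rw [idx, Finset.mem_filter]
        exact ⟨Finset.mem_univ _,
          (hp.pow_dvd_iff_le_factorization (hw i).ne').2 (not_lt.1 hlt)⟩
      · intro h i hi
        rw [idx, Finset.mem_filter] at hi
        by_contra hiI
        have h2 := h i (Finset.mem_sdiff.2 ⟨Finset.mem_univ i, hiI⟩)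
        have h3 := (hp.pow_dvd_iff_le_factorization (hw i).ne').1 hi.2
        omega
    rw [h1, card_gt]
    have h2 : ∀ s, s ≤ ((Finset.univ \ I).gcd u).factorization p ↔ s ≤ e - V := by
      intro s
      rw [← hp.pow_dvd_iff_le_factorization (hg0 I hI), Finset.dvd_gcd_iff]
      have h3 : ∀ i, p ^ s ∣ u i ↔ s ≤ e - (w i).factorization p := by
        intro i
        rw [hp.pow_dvd_iff_le_factorization (hu0 i).ne', hu, fac_u hd (hw i)]
      constructor
      · intro h
        obtain ⟨i, hi, hiV⟩ := Finset.exists_mem_eq_sup _ hne fun i => (w i).factorization p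
        have h4 := (h3 i).1 (h i hi)
        rw [← hiV] at h4
        exact h4
      · intro h i hi
        have h4 : (w i).factorization p ≤ V := Finset.le_sup (f := fun i =>
          (w i).factorization p) hi
        exact (h3 i).2 (by omega)
    exact le_antisymm ((h2 _).1 le_rfl) ((h2 _).2 le_rfl)
  -- Moebius inversion
  have hcard : ∀ I : Finset (Fin (n + 1)),
      ((Finset.Icc 1 e).filter fun t => idx w p t ⊆ I).card =
        ∑ J ∈ I.powerset, ((Finset.Icc 1 e).filter fun t => idx w p t = J).card := by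
    intro I
    rw [Finset.card_eq_sum_card_fiberwise (f := fun t => idx w p t) (t := I.powerset)
      (fun t ht => Finset.mem_coe.2 (Finset.mem_powerset.2
        (Finset.mem_filter.1 (Finset.mem_coe.1 ht)).2))]
    refine Finset.sum_congr rfl fun J hJ => ?_
    congr 1
    ext t
    simp only [Finset.mem_filter]
    constructor
    · rintro ⟨⟨h1, _⟩, h2⟩
      exact ⟨h1, h2⟩
    · rintro ⟨h1, h2⟩
      exact ⟨⟨h1, h2 ▸ Finset.mem_powerset.1 hJ⟩, h2⟩
  have hsum : ∀ I : Finset (Fin (n + 1)), I ≠ Finset.univ →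
      ∑ J ∈ I.powerset, (c J).factorization p =
        ∑ J ∈ I.powerset, ((Finset.Icc 1 e).filter fun t => idx w p t = J).card := by
    intro I hI
    rw [← hcard, ← hgcd I hI, ← hc I, Nat.factorization_prod (hc0 I hI),
      Finsupp.finsetSum_apply]
  have hmain : ∀ I : Finset (Fin (n + 1)), I ≠ Finset.univ →
      (c I).factorization p = ((Finset.Icc 1 e).filter fun t => idx w p t = I).card := by
    intro I
    induction I using Finset.strongInduction with
    | H I ih =>
      intro hI
      have h1 := hsum I hI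
      rw [← Finset.add_sum_erase _ _ (Finset.mem_powerset_self I),
        ← Finset.add_sum_erase _ _ (Finset.mem_powerset_self I)] at h1
      have h2 : ∑ J ∈ I.powerset.erase I, (c J).factorization p =
          ∑ J ∈ I.powerset.erase I, ((Finset.Icc 1 e).filter fun t => idx w p t = J).card := by
        refine Finset.sum_congr rfl fun J hJ => ?_
        rw [Finset.mem_erase, Finset.mem_powerset] at hJ
        have hJI : J ⊂ I := lt_of_le_of_ne hJ.2 hJ.1
        refine ih J hJI fun h => ?_
        rw [h] at hJI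
        exact hJI.2 (Finset.subset_univ I)
      rw [h2] at h1
      exact Nat.add_right_cancel h1
  rw [Nat.factorization_prod fun I hI => hc1 I (hfil I hI), Finsupp.finsetSum_apply,
    Finset.card_eq_sum_card_fiberwise (f := fun t => idx w p t)
      (t := Finset.univ.filter (fun I => ((j + 1 : ℕ) : ℚ) ≤ k I))
      (fun t ht => Finset.mem_coe.2 (Finset.mem_filter.2 ⟨Finset.mem_univ _,
        (Finset.mem_filter.1 (Finset.mem_coe.1 ht)).2⟩))]
  refine Finset.sum_congr rfl fun I hI => ?_
  rw [hmain I (hfil I hI)]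
  congr 1
  ext t
  simp only [Finset.mem_filter]
  constructor
  · rintro ⟨h1, h2⟩
    refine ⟨⟨h1, ?_⟩, h2⟩
    rw [h2]
    exact (Finset.mem_filter.1 hI).2
  · rintro ⟨⟨h1, _⟩, h2⟩
    exact ⟨h1, h2⟩

end Pool.Agent.W2helper52.OT
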